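import Mathlib

set_option autoImplicit false
open scoped ComplexOrder
open Matrix

namespace Pool.Agent.H7.Schatten

def a0 : Matrix (Fin 3) (Fin 3) ℝ := !![16, 0, 12; 0, 0, 0; 12, 0, 9]
def a1 : Matrix (Fin 3) (Fin 3) ℝ := Matrix.diagonal ![0, 9, 25]
def b0 : Matrix (Fin 3) (Fin 3) ℝ := Matrix.diagonal ![0, 25, 0]

def u : Fin 3 → ℝ := ![4, 0, 3]

/-- the quadratic form of the rank one matrix -/
def q (W : Matrix (Fin 3) (Fin 3) ℝ) : ℝ := u ⬝ᵥ (W *ᵥ u)

lemma a0_eq : a0 = vecMulVec u u := by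
  ext i j
  fin_cases i <;> fin_cases j <;> norm_num [a0, u, vecMulVec_apply]

def wa (s : List Bool) : Matrix (Fin 3) (Fin 3) ℝ := (s.map (fun b => cond b a1 a0)).prod
def wb (s : List Bool) : Matrix (Fin 3) (Fin 3) ℝ := (s.map (fun b => cond b a1 b0)).prod
def cc (s : List Bool) : ℝ := (s.map (fun b => cond b (9:ℝ) 25)).prod

lemma cc_pos (s : List Bool) : 0 < cc s := by
  induction s with
  | nil => simp [cc]
  | cons b s ih =>
    have : cc (b :: s) = (cond b (9:ℝ) 25) * cc s := by simp [cc]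
    rw [this]
    cases b <;> simp <;> exact ih

lemma cc_append (s t : List Bool) : cc (s ++ t) = cc s * cc t := by simp [cc]

lemma q_mul (X Y : Matrix (Fin 3) (Fin 3) ℝ) : q (X * (a0 * Y)) = q X * q Y := by
  unfold q
  rw [a0_eq, ← mulVec_mulVec, ← mulVec_mulVec]
  have : vecMulVec u u *ᵥ (Y *ᵥ u) = (u ⬝ᵥ (Y *ᵥ u)) • u := by
    ext i
    simp only [mulVec, dotProduct, vecMulVec_apply, Pi.smul_apply, smul_eq_mul, Finset.sum_mul]
    refine Finset.sum_congr rfl fun j _ => ?_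
    ring
  rw [this, mulVec_smul, dotProduct_smul, smul_eq_mul]
  ring

lemma q_pow (k : ℕ) : 25 * (9:ℝ) ^ k ≤ q (a1 ^ k) := by
  unfold q a1
  rw [diagonal_pow]
  have : u ⬝ᵥ (diagonal (![0, 9, 25] ^ k) *ᵥ u) = 16 * 0 ^ k + 9 * 25 ^ k := by
    simp [dotProduct, mulVec_diagonal, Fin.sum_univ_three, u]
    ring
  rw [this]
  rcases Nat.eq_zero_or_pos k with rfl | hk
  · norm_num
  · rw [zero_pow hk.ne']
    obtain ⟨j, rfl⟩ := Nat.exists_eq_succ_of_ne_zero hk.ne'
    have : (9:ℝ) ^ j ≤ 25 ^ j := pow_le_pow_left₀ (by norm_num) (by norm_num) j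
    rw [pow_succ, pow_succ]
    linarith

lemma q_word (s : List Bool) : ∀ k : ℕ, 25 * 9 ^ k * cc s ≤ q (a1 ^ k * wa s) := by
  induction s with
  | nil => intro k; simpa [cc, wa] using q_pow k
  | cons b s ih =>
    intro k
    have e : wa (b :: s) = (cond b a1 a0) * wa s := by simp [wa]
    have e2 : cc (b :: s) = (cond b (9:ℝ) 25) * cc s := by simp [cc]
    rw [e, e2]
    cases b
    · simp only [cond_false]
      rw [q_mul]
      have h1 := q_pow k
      have h2 := ih 0
      rw [pow_zero, pow_zero, mul_one, one_mul] at h2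
      have h3 : 0 < 25 * cc s := by have := cc_pos s; positivity
      calc 25 * 9 ^ k * (25 * cc s) ≤ q (a1 ^ k) * (25 * cc s) := mul_le_mul_of_nonneg_right h1 h3.le
        _ ≤ q (a1 ^ k) * q (wa s) := mul_le_mul_of_nonneg_left h2 (le_trans (by positivity) h1)
    · simp only [cond_true]
      have h1 := ih (k + 1)
      have e3 : a1 ^ k * (a1 * wa s) = a1 ^ (k + 1) * wa s := by rw [pow_succ, mul_assoc]
      rw [e3]
      refine le_trans (le_of_eq ?_) h1
      ring

lemma trace_a (t r : List Bool) : (wa (t ++ false :: r)).trace = q (wa (r ++ t)) := by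
  have e1 : wa (t ++ false :: r) = wa t * (a0 * wa r) := by simp [wa]
  have e2 : wa (r ++ t) = wa r * wa t := by simp [wa]
  rw [e1, e2, Matrix.trace_mul_comm, mul_assoc, Matrix.trace_mul_comm, a0_eq]
  unfold q
  rw [Matrix.mul_vecMulVec, Matrix.trace_vecMulVec, dotProduct_comm]

lemma wb_diag (s : List Bool) : wb s = Matrix.diagonal (s.map (fun b => cond b (![0, 9, 25] : Fin 3 → ℝ) ![0, 25, 0])).prod := by
  induction s with
  | nil => simp [wb]
  | cons b s ih =>
    have e : wb (b :: s) = (cond b a1 b0) * wb s := by simp [wb]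
    rw [e, ih, List.map_cons, List.prod_cons]
    cases b
    · simp only [cond_false, b0, diagonal_mul_diagonal]; rfl
    · simp only [cond_true, a1, diagonal_mul_diagonal]; rfl

lemma trace_b (t r : List Bool) : (wb (t ++ false :: r)).trace = cc (t ++ false :: r) := by
  rw [wb_diag, Matrix.trace_diagonal, Fin.sum_univ_three]
  have hp : ∀ (s : List Bool) (i : Fin 3), (s.map (fun b => cond b (![0, 9, 25] : Fin 3 → ℝ) ![0, 25, 0])).prod i =
      (s.map (fun b => (cond b (![0, 9, 25] : Fin 3 → ℝ) ![0, 25, 0]) i)).prod := by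
    intro s i
    induction s with
    | nil => simp
    | cons b s ih => rw [List.map_cons, List.prod_cons, Pi.mul_apply, ih, List.map_cons, List.prod_cons]
  rw [hp, hp, hp]
  have h1 : ((t ++ false :: r).map (fun b => (cond b (![0, 9, 25] : Fin 3 → ℝ) ![0, 25, 0]) 0)).prod = 0 := by
    rw [List.prod_eq_zero_iff, List.mem_map]
    exact ⟨false, by simp, by simp⟩
  have h3 : ((t ++ false :: r).map (fun b => (cond b (![0, 9, 25] : Fin 3 → ℝ) ![0, 25, 0]) 2)).prod = 0 := by
    rw [List.prod_eq_zero_iff, List.mem_map]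
    exact ⟨false, by simp, by simp⟩
  rw [h1, h3, zero_add, add_zero]
  unfold cc
  congr 1
  refine List.map_congr_left fun b _ => ?_
  cases b <;> simp

lemma words (s : List Bool) : |(wb s).trace| ≤ (wa s).trace := by
  by_cases hs : false ∈ s
  · obtain ⟨t, r, rfl⟩ := List.append_of_mem hs
    rw [trace_a, trace_b, abs_of_pos (cc_pos _)]
    have := q_word (r ++ t) 0
    rw [pow_zero, pow_zero, mul_one, one_mul] at this
    refine le_trans (le_of_eq ?_) this
    rw [cc_append, cc_append]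
    have : cc (false :: r) = 25 * cc r := by simp [cc]
    rw [this]; ring
  · have : wa s = wb s := by
      unfold wa wb
      congr 1
      refine List.map_congr_left fun b hb => ?_
      cases b
      · exact absurd hb hs
      · rfl
    rw [this, abs_of_nonneg]
    rw [wb_diag, Matrix.trace_diagonal]
    refine Finset.sum_nonneg fun i _ => ?_
    clear this hs
    induction s with
    | nil => simp
    | cons b s ih =>
      rw [List.map_cons, List.prod_cons, Pi.mul_apply]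
      refine mul_nonneg ?_ ih
      cases b <;> fin_cases i <;> simp

/-- cast to complex matrices -/
noncomputable def φ : Matrix (Fin 3) (Fin 3) ℝ →+* Matrix (Fin 3) (Fin 3) ℂ := Complex.ofRealHom.mapMatrix

lemma φ_apply (M : Matrix (Fin 3) (Fin 3) ℝ) (i j : Fin 3) : φ M i j = (M i j : ℂ) := rfl

lemma φ_trace (M : Matrix (Fin 3) (Fin 3) ℝ) : (φ M).trace = (M.trace : ℂ) := by
  simp [Matrix.trace, φ_apply]

lemma psd_a0 : (φ a0).PosSemidef := by
  have h := Matrix.posSemidef_conjTranspose_mul_self (!![4, 0, 3; 0, 0, 0; 0, 0, 0] : Matrix (Fin 3) (Fin 3) ℂ)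
  have e : φ a0 = (!![4, 0, 3; 0, 0, 0; 0, 0, 0] : Matrix (Fin 3) (Fin 3) ℂ)ᴴ * !![4, 0, 3; 0, 0, 0; 0, 0, 0] := by
    ext i j
    rw [φ_apply]
    have c3 : (starRingEnd ℂ) 3 = 3 := map_ofNat _ _
    have c4 : (starRingEnd ℂ) 4 = 4 := map_ofNat _ _
    fin_cases i <;> fin_cases j <;> simp [a0, Matrix.mul_apply, Fin.sum_univ_three, c3, c4] <;> norm_num
  rw [e]; exact h

lemma φ_diag (d : Fin 3 → ℝ) : φ (Matrix.diagonal d) = Matrix.diagonal (fun i => (d i : ℂ)) := by
  ext i j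
  rw [φ_apply]
  by_cases h : i = j
  · subst h; simp
  · simp [Matrix.diagonal_apply_ne _ h]

lemma psd_a1 : (φ a1).PosSemidef := by
  unfold a1
  rw [φ_diag]
  apply Matrix.PosSemidef.diagonal
  intro i
  fin_cases i <;> simp

lemma psd_b0 : (φ b0).PosSemidef := by
  unfold b0
  rw [φ_diag]
  apply Matrix.PosSemidef.diagonal
  intro i
  fin_cases i <;> simp

open Polynomial in
lemma charpoly_sum (M : Matrix (Fin 3) (Fin 3) ℂ) (hM : M.IsHermitian) (x y z : ℝ)
    (hc : M.charpoly = (X - C (x:ℂ)) * (X - C (y:ℂ)) * (X - C (z:ℂ))) (p : ℝ) :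
    ∑ i, (hM.eigenvalues i) ^ p = x ^ p + y ^ p + z ^ p := by
  have h1 := hM.roots_charpoly_eq_eigenvalues
  rw [hc] at h1
  have h2 : ((X - C (x:ℂ)) * (X - C (y:ℂ)) * (X - C (z:ℂ))).roots = {(x:ℂ), (y:ℂ), (z:ℂ)} := by
    rw [roots_mul, roots_mul, roots_X_sub_C, roots_X_sub_C, roots_X_sub_C]
    · rfl
    · exact mul_ne_zero (X_sub_C_ne_zero _) (X_sub_C_ne_zero _)
    · exact mul_ne_zero (mul_ne_zero (X_sub_C_ne_zero _) (X_sub_C_ne_zero _)) (X_sub_C_ne_zero _)
  rw [h2] at h1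
  have h3 := congrArg (fun s : Multiset ℂ => (s.map (fun w : ℂ => w.re ^ p)).sum) h1
  simp only [Multiset.map_map, Function.comp_def] at h3
  rw [Finset.sum_eq_multiset_sum]
  have h4 : (Multiset.map (fun i => hM.eigenvalues i ^ p) Finset.univ.val) =
    Multiset.map (fun i => ((RCLike.ofReal (hM.eigenvalues i) : ℂ)).re ^ p) Finset.univ.val := by
    refine Multiset.map_congr rfl fun i _ => ?_
    simp
  rw [h4, ← h3]
  simp
  ring

open Polynomial in
lemma cp_a0 : (φ a0).charpoly = (φ b0).charpoly := by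
  rw [Matrix.charpoly, Matrix.det_fin_three, Matrix.charpoly, Matrix.det_fin_three]
  simp [φ_apply, a0, b0]
  simp only [show (C (16:ℂ)) = 16 from rfl, show (C (12:ℂ)) = 12 from rfl, show (C (9:ℂ)) = 9 from rfl,
    show (C (25:ℂ)) = 25 from rfl]
  ring

open Polynomial in
lemma cp_A : (φ a0 + φ a1).charpoly = (X - C ((9:ℝ):ℂ)) * (X - C ((10:ℝ):ℂ)) * (X - C ((40:ℝ):ℂ)) := by
  rw [Matrix.charpoly, Matrix.det_fin_three]
  simp [φ_apply, a0, a1]
  simp only [show (C (16:ℂ)) = 16 from rfl, show (C (12:ℂ)) = 12 from rfl, show (C (9:ℂ)) = 9 from rfl,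
    show (C (25:ℂ)) = 25 from rfl, show (C (10:ℂ)) = 10 from rfl, show (C (40:ℂ)) = 40 from rfl]
  ring

open Polynomial in
lemma cp_B : (φ b0 + φ a1).charpoly = (X - C ((0:ℝ):ℂ)) * (X - C ((34:ℝ):ℂ)) * (X - C ((25:ℝ):ℂ)) := by
  rw [Matrix.charpoly, Matrix.det_fin_three]
  simp [φ_apply, b0, a1]
  simp only [show (C (9:ℂ)) = 9 from rfl,
    show (C (25:ℂ)) = 25 from rfl, show (C (34:ℂ)) = 34 from rfl]
  left
  ring

theorem main :
    ¬ (∀ (n : ℕ) (A₀ A₁ B₀ B₁ : Matrix (Fin n) (Fin n) ℂ)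
      (hA₀ : A₀.PosSemidef) (hA₁ : A₁.PosSemidef)
      (hB₀ : B₀.PosSemidef) (hB₁ : B₁.PosSemidef),
      A₀.charpoly = B₀.charpoly →
      A₁.charpoly = B₁.charpoly →
      (∀ s : List Bool,
        ((‖((s.map (fun b => cond b B₁ B₀)).prod).trace‖ : ℝ) : ℂ) ≤
          ((s.map (fun b => cond b A₁ A₀)).prod).trace) →
      ∀ p : ℝ, 1 ≤ p →
        ∑ i, ((hB₀.add hB₁).isHermitian.eigenvalues i) ^ p ≤
          ∑ i, ((hA₀.add hA₁).isHermitian.eigenvalues i) ^ p) := by
  intro h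
  have h1 := h 3 (φ a0) (φ a1) (φ b0) (φ a1) psd_a0 psd_a1 psd_b0 psd_a1 cp_a0 rfl (by
    intro s
    have eA : (s.map (fun b => cond b (φ a1) (φ a0))).prod = φ (wa s) := by
      unfold wa
      rw [map_list_prod, List.map_map]
      congr 1
      refine List.map_congr_left fun b _ => ?_
      cases b <;> rfl
    have eB : (s.map (fun b => cond b (φ a1) (φ b0))).prod = φ (wb s) := by
      unfold wb
      rw [map_list_prod, List.map_map]
      congr 1
      refine List.map_congr_left fun b _ => ?_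
      cases b <;> rfl
    rw [eA, eB, φ_trace, φ_trace, Complex.norm_real]
    have := words s
    exact_mod_cast this) (3/2) (by norm_num)
  rw [charpoly_sum _ _ _ _ _ cp_A, charpoly_sum _ _ _ _ _ cp_B] at h1
  have hp : ∀ x : ℝ, 0 ≤ x → x ^ (3/2 : ℝ) = x * Real.sqrt x := by
    intro x hx
    rcases hx.eq_or_lt with rfl | hx
    · rw [Real.zero_rpow (by norm_num)]; simp
    · rw [show (3/2 : ℝ) = 1 + 1/2 by norm_num, Real.rpow_add hx, Real.rpow_one, Real.sqrt_eq_rpow]
  rw [hp 9 (by norm_num), hp 10 (by norm_num), hp 40 (by norm_num), hp 0 le_rfl, hp 34 (by norm_num),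
    hp 25 (by norm_num)] at h1
  have s9 : Real.sqrt 9 = 3 := by rw [show (9:ℝ) = 3 ^ 2 by norm_num]; exact Real.sqrt_sq (by norm_num)
  have s25 : Real.sqrt 25 = 5 := by rw [show (25:ℝ) = 5 ^ 2 by norm_num]; exact Real.sqrt_sq (by norm_num)
  have s10 : Real.sqrt 10 ≤ 3.17 := by
    rw [Real.sqrt_le_left (by norm_num)]; norm_num
  have s40 : Real.sqrt 40 ≤ 6.34 := by
    rw [Real.sqrt_le_left (by norm_num)]; norm_num
  have s34 : 5.8 ≤ Real.sqrt 34 := by
    apply Real.le_sqrt_of_sq_le; norm_num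
  rw [s9, s25] at h1
  linarith

end Pool.Agent.H7.Schatten
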